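import Pool.Agent.H47.KS.Targets

set_option autoImplicit false

namespace Pool.Agent.H1.KSU

open Finset Pool.Agent.H37.SP Pool.Agent.H47.KS

/-- the number of edges of a homogeneous set -/
theorem ee_hom {N : ℕ} (G : SimpleGraph (Fin N)) (A : Finset (Fin N)) (e : ℤ)
    (h : ∀ a ∈ A, ∀ b ∈ A, a ≠ b → aa G a b = e) : ee G A = e * C2 (A.card : ℤ) := by
  have h1 := two_mul_ee G A
  have h2 := two_C2 (A.card : ℤ)
  have h3 : ∀ x ∈ A, dg G A x = e * ((A.card : ℤ) - 1) := by
    intro x hx
    have e1 : insert x (A.erase x) = A := insert_erase hx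
    have e2 := dg_insert G (notMem_erase x A) x
    rw [e1, aa_self, zero_add] at e2
    rw [e2]
    unfold dg
    rw [sum_congr rfl fun y hy => h x hx y (mem_of_mem_erase hy) (ne_of_mem_erase hy).symm,
      sum_const, card_erase_of_mem hx, nsmul_eq_mul, Nat.cast_sub (card_pos.2 ⟨x, hx⟩)]
    push_cast
    ring
  rw [sum_congr rfl h3, sum_const, nsmul_eq_mul] at h1
  have h4 : 2 * ee G A = 2 * (e * C2 (A.card : ℤ)) := by
    rw [h1]
    linear_combination (-e) * h2
  omega

theorem pf_FEW (hSUM : T_SUM) : T_FEW := by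
  intro P N G C K e hP hC hKC hK hcard hR
  have hpn := hP.pn
  have hkN := hP.kN
  have hL1 := hP.L1
  have hp1 := hP.p1
  have hN1 := hP.N1
  have hpk : P.p ≤ P.k := by omega
  obtain ⟨X, hXC, hX⟩ := Finset.exists_subset_card_eq (s := C) (n := P.p) (by rw [hC]; exact hpk)
  let V : Finset ℤ := K.image fun a => dg G (C \ X) a
  have hCK : Disjoint C K := hKC.symm
  by_cases hV : 2 * P.p ≤ V.card
  · exfalso
    obtain ⟨V0, hV0, hV0c⟩ := Finset.exists_subset_card_eq hV
    let w : Fin (2 * P.p) → ℤ := V0.orderEmbOfFin hV0c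
    have hw : StrictMono w := (V0.orderEmbOfFin hV0c).strictMono
    have hwV : ∀ i, ∃ a ∈ K, dg G (C \ X) a = w i := fun i =>
      mem_image.1 (hV0 (V0.orderEmbOfFin_mem hV0c i))
    choose a haK haw using hwV
    have hainj : Function.Injective a := by
      intro i j hij
      apply hw.injective
      rw [← haw i, ← haw j, hij]
    let b : ℤ := ee G (C \ X) + e * C2 (P.p : ℤ)
    let T : Finset ℤ := ((univ : Finset (Fin (2 * P.p))).powersetCard P.p).image
      (fun Q => b + ∑ i ∈ Q, w i)
    apply hR
    refine ⟨T, Or.inl ⟨b, w, rfl⟩, ?_, ?_⟩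
    · intro z hz
      obtain ⟨Q, hQ, hz⟩ := mem_image.1 hz
      obtain ⟨-, hQc⟩ := mem_powersetCard.1 hQ
      have hO1 : (Q.image a).card = P.p := by
        rw [card_image_of_injective _ hainj, hQc]
      have hOK : Q.image a ⊆ K := by
        intro v hv
        obtain ⟨i, -, rfl⟩ := mem_image.1 hv
        exact haK i
      have hCO : Disjoint C (Q.image a) := hCK.mono_right hOK
      have h1 : ee G ((C \ X) ∪ Q.image a) = z := by
        rw [ee_union G (hCO.mono_left sdiff_subset),
          ee_hom G (Q.image a) e fun x hx y hy hxy => hK x (hOK hx) y (hOK hy) hxy, hO1,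
          sum_image fun i _ j _ hij => hainj hij, ← hz, sum_congr rfl fun i _ => haw i]
      refine ⟨⟨(C \ X) ∪ Q.image a, ?_, h1⟩, ?_⟩
      · rw [card_swap hXC hCO (by rw [hO1, hX]), hC]
      · rw [← h1]
        refine (swap_dist G hC hXC hCO (by rw [hO1, hX])).trans ?_
        rw [hX]
        have h2 : P.p * P.k ≤ P.L1 := by
          refine le_trans ?_ hL1
          refine Nat.mul_le_mul_right _ ?_
          omega
        exact_mod_cast h2
    · have h1 := hSUM P.p w hp1 hw
      have h2 : T.card = (((univ : Finset (Fin (2 * P.p))).powersetCard P.p).image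
          (fun Q => ∑ i ∈ Q, w i)).card := by
        have h3 : T = (((univ : Finset (Fin (2 * P.p))).powersetCard P.p).image
            (fun Q => ∑ i ∈ Q, w i)).image (fun y => b + y) := by
          rw [image_image]
          rfl
        rw [h3, card_image_of_injective _ (add_right_injective b)]
      rw [h2]
      exact hP.tp.trans h1
  · push Not at hV
    let t : Finset ℤ := (V ×ˢ range (P.p + 1)).image fun q => q.1 + (q.2 : ℤ)
    have htc : t.card ≤ V.card * (P.p + 1) := by
      refine card_image_le.trans ?_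
      rw [card_product, card_range]
    have hmaps : ∀ v ∈ K, dg G C v ∈ t := by
      intro v hv
      have h1 := dg_sdiff G hXC v
      have h2 := dg_nonneg G X v
      have h3 := dg_le G X v
      rw [hX] at h3
      refine mem_image.2 ⟨(dg G (C \ X) v, (dg G X v).toNat), ?_, ?_⟩
      · refine mem_product.2 ⟨mem_image_of_mem _ hv, ?_⟩
        rw [mem_range]
        simp only
        omega
      · simp only
        rw [Int.toNat_of_nonneg h2]
        omega
    have hKne : K.Nonempty := by
      rw [← card_pos]
      refine lt_of_lt_of_le ?_ hcard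
      have : 0 < P.N1 := by omega
      positivity
    have htne : t.Nonempty := by
      obtain ⟨v, hv⟩ := hKne
      exact ⟨_, hmaps v hv⟩
    have hn : t.card * P.N1 ≤ K.card := by
      refine le_trans (Nat.mul_le_mul_right _ ?_) hcard
      refine htc.trans (Nat.mul_le_mul_right _ ?_)
      omega
    obtain ⟨w, -, hw⟩ := Finset.exists_le_card_fiber_of_mul_le_card_of_maps_to hmaps htne hn
    obtain ⟨K1, hK1, hK1c⟩ := Finset.exists_subset_card_eq hw
    exact ⟨K1, fun v hv => (mem_filter.1 (hK1 hv)).1, hK1c, w,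
      fun v hv => (mem_filter.1 (hK1 hv)).2⟩

end Pool.Agent.H1.KSU
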