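import Pool.Agent.H47.KS.Targets

set_option autoImplicit false

namespace Pool.Agent.H1.KSU

open Finset Pool.Agent.H37.SP Pool.Agent.H47.KS

theorem fib_aux {b g c : ℤ} (hc : c = 1 ∨ c = -1) {t t' : ℕ} (hne : t ≠ t')
    (h : b + g * (t : ℤ) + c * C2 (t : ℤ) = b + g * (t' : ℤ) + c * C2 (t' : ℤ)) :
    2 * g + c * ((t : ℤ) + t' - 1) = 0 := by
  have h1 := two_C2 (t : ℤ)
  have h2 := two_C2 (t' : ℤ)
  have h3 : ((t : ℤ) - t') * (2 * g + c * ((t : ℤ) + t' - 1)) = 0 := by
    have h4 : ((t : ℤ) - t') * (2 * g + c * ((t : ℤ) + t' - 1)) =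
        2 * g * ((t : ℤ) - t') + c * ((t : ℤ) * (t - 1) - (t' : ℤ) * (t' - 1)) := by ring
    rw [h4, ← h1, ← h2]
    linear_combination 2 * h
  rcases mul_eq_zero.1 h3 with h5 | h5
  · exact absurd (by exact_mod_cast (sub_eq_zero.1 h5)) hne
  · exact h5

theorem pf_PCD : T_PCD := by
  intro b g c x
  constructor
  · intro hg
    unfold prog
    rw [card_image_of_injective, card_range]
    intro t t' h
    have h1 : g * ((t : ℤ) - t') = 0 := by
      have h2 : b + g * (t : ℤ) + 0 * C2 (t : ℤ) = b + g * (t' : ℤ) + 0 * C2 (t' : ℤ) := h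
      linear_combination h2
    rcases mul_eq_zero.1 h1 with h2 | h2
    · exact absurd h2 hg
    · exact_mod_cast (sub_eq_zero.1 h2)
  · intro hc
    have h1 := Finset.card_le_mul_card_image (f := fun t : ℕ => b + g * (t : ℤ) + c * C2 (t : ℤ))
      (range x) 2 ?_
    · rw [card_range] at h1
      exact h1
    · intro a _
      by_contra hcon
      push Not at hcon
      obtain ⟨t₁, t₂, t₃, h1, h2, h3, h12, h13, h23⟩ := Finset.two_lt_card_iff.1 hcon
      have e1 := (mem_filter.1 h1).2
      have e2 := (mem_filter.1 h2).2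
      have e3 := (mem_filter.1 h3).2
      have f1 := fib_aux hc h12 (e1.trans e2.symm)
      have f2 := fib_aux hc h13 (e1.trans e3.symm)
      rcases hc with rfl | rfl
      · apply h23
        omega
      · apply h23
        omega

end Pool.Agent.H1.KSU
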