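import Pool.Agent.H47.KS.Targets

set_option autoImplicit false

namespace Pool.Agent.H1.KSU

open Finset Pool.Agent.H37.SP Pool.Agent.H47.KS

theorem pf_SEP : T_SEP := by
  classical
  intro Y L
  obtain ⟨Y', hY', hmax⟩ := Finset.exists_max_image
    (Y.powerset.filter fun Z => ∀ y ∈ Z, ∀ z ∈ Z, y ≠ z → (L : ℤ) < |y - z|)
    Finset.card ⟨∅, mem_filter.2 ⟨empty_mem_powerset _, fun y hy => absurd hy (notMem_empty y)⟩⟩
  obtain ⟨h1, h2⟩ := mem_filter.1 hY'
  rw [mem_powerset] at h1
  refine ⟨Y', h1, h2, ?_⟩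
  have h3 : Y ⊆ Y'.biUnion fun y => Icc (y - (L : ℤ)) (y + L) := by
    intro y hy
    rw [mem_biUnion]
    by_contra hcon
    push Not at hcon
    have h4 : y ∉ Y' := fun h => hcon y h (by rw [mem_Icc]; omega)
    have h5 : ∀ z ∈ Y', (L : ℤ) < |y - z| := by
      intro z hz
      by_contra h6
      push Not at h6
      rw [abs_le] at h6
      exact hcon z hz (by rw [mem_Icc]; omega)
    have h6 := hmax (insert y Y') (mem_filter.2 ⟨by
      rw [mem_powerset]
      exact insert_subset hy h1, by
      intro a ha b hb hab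
      rw [mem_insert] at ha hb
      rcases ha with rfl | ha <;> rcases hb with rfl | hb
      · exact absurd rfl hab
      · exact h5 b hb
      · rw [abs_sub_comm]
        exact h5 a ha
      · exact h2 a ha b hb hab⟩)
    rw [card_insert_of_notMem h4] at h6
    omega
  refine (card_le_card h3).trans (card_biUnion_le.trans ?_)
  rw [← smul_eq_mul]
  refine sum_le_card_nsmul _ _ _ fun y _ => ?_
  rw [Int.card_Icc]
  omega

end Pool.Agent.H1.KSU
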